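import Pool.Agent.R928.DP.Chain

/-! A reversible recurrent Markov chain for which the directed polymer has `β_2 > 0`. -/

set_option autoImplicit false
set_option linter.all false

namespace Pool.Agent.Results.MP_6abe48_pr.Polymer

open MeasureTheory ProbabilityTheory Pool.Agent.R928.DP
open scoped ENNReal NNReal

theorem mm_eq {ν : Measure ℝ} (h : EnvLaw ν) (β : ℝ) (hβ : 0 < β) : mm ν β = ENNReal.ofReal (∫ x, Real.exp (β * x) ∂ν) := by
  unfold mm
  rw [ofReal_integral_eq_lintegral_ofReal (h.expInt β hβ)]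
  exact Filter.Eventually.of_forall fun x => (Real.exp_pos _).le

theorem one_le_int {ν : Measure ℝ} (h : EnvLaw ν) (β : ℝ) (hβ : 0 < β) : 1 ≤ ∫ x, Real.exp (β * x) ∂ν := by
  haveI := h.prob
  have h1 : ∫ x, (β * x + 1) ∂ν = 1 := by
    rw [integral_add (h.int1.const_mul β) (integrable_const _), integral_const_mul, h.mean]
    simp
  calc (1 : ℝ) = ∫ x, (β * x + 1) ∂ν := h1.symm
    _ ≤ ∫ x, Real.exp (β * x) ∂ν := by
        apply integral_mono ((h.int1.const_mul β).add (integrable_const _)) (h.expInt β hβ)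
        intro x
        exact Real.add_one_le_exp _

theorem int_le {ν : Measure ℝ} (h : EnvLaw ν) (s : ℝ) (hs : 0 < s) (hs1 : s ≤ 1) :
    ∫ x, Real.exp (s * x) ∂ν ≤ 1 + s * (∫ x, Real.exp (1 * x) ∂ν - 1) := by
  haveI := h.prob
  have hI := h.expInt 1 one_pos
  have h1 : ∫ x, ((1 - s) + s * Real.exp (1 * x)) ∂ν = 1 + s * (∫ x, Real.exp (1 * x) ∂ν - 1) := by
    rw [integral_add (integrable_const _) (hI.const_mul s), integral_const_mul]
    simp
    ring
  rw [← h1]
  apply integral_mono (h.expInt s hs) ((integrable_const _).add (hI.const_mul s))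
  intro x
  have hc := convexOn_exp.2 (Set.mem_univ (0 : ℝ)) (Set.mem_univ x) (sub_nonneg.mpr hs1) hs.le (by ring)
  simp only [smul_eq_mul, mul_zero, zero_add, Real.exp_zero, mul_one] at hc
  simpa using hc

/-- the second moment of `W_n` for small `β` -/
theorem bounded {ν : Measure ℝ} (h : EnvLaw ν) (β : ℝ) (hβ : 0 < β) (hβ2 : 2 * β ≤ 1)
    (hβ3 : 2 * ENNReal.ofReal (2 * β * (∫ x, Real.exp (1 * x) ∂ν - 1)) * ENNReal.ofReal (16 + 16 * SS) ≤ 1)
    (n : ℕ) (x : List Bool × ℤ) : ∫⁻ ω, W PP ν β n x ω ^ 2 ∂(env (List Bool × ℤ) ν) ≤ 2 := by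
  haveI := h.prob
  set K : ℝ := ∫ x, Real.exp (1 * x) ∂ν - 1 with hK
  set m : ℝ := ∫ x, Real.exp (β * x) ∂ν with hm
  have hm1 : 1 ≤ m := one_le_int h β hβ
  have hm0 : 0 < m := by linarith
  have hK0 : 0 ≤ K := by
    have := one_le_int h 1 one_pos
    rw [hK]
    linarith
  have hmm : mm ν β = ENNReal.ofReal m := mm_eq h β hβ
  have hmm1 : 1 ≤ mm ν β := by
    rw [hmm, ← ENNReal.ofReal_one]
    exact ENNReal.ofReal_le_ofReal hm1
  have hkey : mm ν (2 * β) ≤ (mm ν β * mm ν β) * (1 + ENNReal.ofReal (2 * β * K)) := by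
    have h1 : mm ν (2 * β) ≤ 1 + ENNReal.ofReal (2 * β * K) := by
      rw [mm_eq h (2 * β) (by positivity), ← ENNReal.ofReal_one, ← ENNReal.ofReal_add zero_le_one (by positivity)]
      exact ENNReal.ofReal_le_ofReal (int_le h (2 * β) (by positivity) hβ2)
    calc mm ν (2 * β) ≤ 1 * 1 * (1 + ENNReal.ofReal (2 * β * K)) := by rw [one_mul, one_mul]; exact h1
      _ ≤ _ := by gcongr
  have hsec := second ν PP β n 0 x x
  have hDD := DD_le PP _ _ _ hkey n x x
  have hMM := MM_diag PP rowP (ENNReal.ofReal (2 * β * K)) (ENNReal.ofReal (16 + 16 * SS)) (fun u n => kappa u n) hβ3 n x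
  have hmeas : Measurable fun ω : ℕ × (List Bool × ℤ) → ℝ => Zp PP β ω n 0 x :=
    (meas_Zp PP β Set.univ n 0 x (fun _ _ _ => trivial)).mono (mS_le _) le_rfl
  have h2 : ∀ ω, W PP ν β n x ω ^ 2 = (Zp PP β ω n 0 x * Zp PP β ω n 0 x) *
      (ENNReal.ofReal (Real.exp (-(n * Lam ν β))) * ENNReal.ofReal (Real.exp (-(n * Lam ν β)))) := by
    intro ω
    unfold W
    ring
  simp only [h2]
  have hmeas2 : Measurable fun ω : ℕ × (List Bool × ℤ) → ℝ => Zp PP β ω n 0 x * Zp PP β ω n 0 x := hmeas.mul hmeas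
  rw [lintegral_mul_const _ hmeas2, hsec]
  have hc : (mm ν β * mm ν β) ^ n *
      (ENNReal.ofReal (Real.exp (-(n * Lam ν β))) * ENNReal.ofReal (Real.exp (-(n * Lam ν β)))) = 1 := by
    rw [hmm, ← ENNReal.ofReal_mul hm0.le, ← ENNReal.ofReal_pow (by positivity), ← ENNReal.ofReal_mul (Real.exp_pos _).le,
      ← ENNReal.ofReal_mul (by positivity), ← ENNReal.ofReal_one]
    congr 1
    have h3 : Real.exp (-(n * Lam ν β)) = (m ^ n)⁻¹ := by
      unfold Lam
      rw [Real.exp_neg, ← Real.log_pow, Real.exp_log (by positivity)]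
    rw [h3, mul_pow]
    have : m ^ n ≠ 0 := by positivity
    field_simp
  calc DD PP (mm ν β * mm ν β) (mm ν (2 * β)) n x x *
        (ENNReal.ofReal (Real.exp (-(n * Lam ν β))) * ENNReal.ofReal (Real.exp (-(n * Lam ν β))))
      ≤ ((mm ν β * mm ν β) ^ n * MM PP (ENNReal.ofReal (2 * β * K)) n x x) *
        (ENNReal.ofReal (Real.exp (-(n * Lam ν β))) * ENNReal.ofReal (Real.exp (-(n * Lam ν β)))) := by gcongr
    _ = ((mm ν β * mm ν β) ^ n * (ENNReal.ofReal (Real.exp (-(n * Lam ν β))) * ENNReal.ofReal (Real.exp (-(n * Lam ν β))))) *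
        MM PP (ENNReal.ofReal (2 * β * K)) n x x := by ring
    _ = MM PP (ENNReal.ofReal (2 * β * K)) n x x := by rw [hc, one_mul]
    _ ≤ 2 := hMM

theorem beta2_pos {ν : Measure ℝ} (h : EnvLaw ν) (x : List Bool × ℤ) : 0 < beta2 PP ν x := by
  set K : ℝ := ∫ x, Real.exp (1 * x) ∂ν - 1 with hK
  have hK0 : 0 ≤ K := by
    have := one_le_int h 1 one_pos
    rw [hK]
    linarith
  set κ : ℝ := 16 + 16 * SS with hκ
  have hκ0 : 0 < κ := by
    have := SS_nonneg
    rw [hκ]
    linarith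
  set β : ℝ := 1 / (4 * (K + 1) * (κ + 1)) with hβdef
  have hβ : 0 < β := by positivity
  have hβ2 : 2 * β ≤ 1 := by
    rw [hβdef, mul_one_div, div_le_one (by positivity)]
    nlinarith [mul_nonneg hK0 hκ0.le]
  have hβ3 : 2 * ENNReal.ofReal (2 * β * K) * ENNReal.ofReal κ ≤ 1 := by
    have e : (2 : ℝ≥0∞) = ENNReal.ofReal 2 := by simp
    rw [e, ← ENNReal.ofReal_mul (by norm_num), ← ENNReal.ofReal_mul (by positivity), ← ENNReal.ofReal_one]
    apply ENNReal.ofReal_le_ofReal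
    have : 2 * (2 * β * K) * κ = (K * κ) / ((K + 1) * (κ + 1)) := by
      rw [hβdef]
      field_simp
      ring
    rw [this, div_le_one (by positivity)]
    nlinarith
  refine lt_of_lt_of_le (ENNReal.ofReal_pos.mpr hβ) (le_sSup ⟨β, hβ.le, rfl, ?_⟩)
  refine lt_of_le_of_lt (iSup_le fun n => bounded h β hβ hβ2 hβ3 n x) ?_
  exact ENNReal.ofNat_lt_top

/-- the fair sign -/
noncomputable def signLaw : Measure ℝ := (2⁻¹ : ℝ≥0∞) • Measure.dirac 1 + (2⁻¹ : ℝ≥0∞) • Measure.dirac (-1)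

theorem sign_int (f : ℝ → ℝ) : Integrable f signLaw ∧ ∫ x, f x ∂signLaw = 1 / 2 * f 1 + 1 / 2 * f (-1) := by
  have h1 : Integrable f ((2⁻¹ : ℝ≥0∞) • Measure.dirac (1 : ℝ)) :=
    (integrable_dirac (by simp)).smul_measure (by simp)
  have h2 : Integrable f ((2⁻¹ : ℝ≥0∞) • Measure.dirac (-1 : ℝ)) :=
    (integrable_dirac (by simp)).smul_measure (by simp)
  unfold signLaw
  refine ⟨h1.add_measure h2, ?_⟩
  rw [integral_add_measure h1 h2, integral_smul_measure, integral_smul_measure, integral_dirac, integral_dirac]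
  simp

theorem sign_env : EnvLaw signLaw where
  prob := by
    constructor
    unfold signLaw
    simp [ENNReal.inv_two_add_inv_two]
  int1 := (sign_int _).1
  mean := by rw [(sign_int _).2]; norm_num
  int2 := (sign_int _).1
  var := by rw [(sign_int _).2]; norm_num
  expInt := fun β _ => (sign_int _).1

/-- There is a pair `(G, S)` with `S` reversible and recurrent such that `β_2 > 0` for every environment law with
mean `0`, variance `1` and finite exponential moments (and such laws exist). -/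
theorem result : ∃ (V : Type) (G : SimpleGraph V) (P : V → V → ℝ≥0),
    NNChain V G P ∧ Reversible P ∧ Recurrent P ∧ (∃ ν : Measure ℝ, EnvLaw ν) ∧
      ∀ ν : Measure ℝ, EnvLaw ν → ∀ x : V, 0 < beta2 P ν x :=
  ⟨List Bool × ℤ, GG, PP, chain, rever, recur, ⟨signLaw, sign_env⟩, fun ν hν x => beta2_pos hν x⟩

end Pool.Agent.Results.MP_6abe48_pr.Polymer
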